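import Mathlib

set_option autoImplicit false

/-!
Sparse expansions of quadratic irrationals: the general counting argument.
-/

open Finset

namespace Sqrt2Digits

/-- `C_N = ∑_{k ≤ N} c_k 10^{N-k}`. -/
def pre (c : ℕ → ℤ) : ℕ → ℤ
  | 0 => c 0
  | N + 1 => 10 * pre c N + c (N + 1)

/-- `∑_{i ≤ N} c_i C_{N-i}`. -/
def conv (c : ℕ → ℤ) (N : ℕ) : ℤ := ∑ i ∈ range (N + 1), c i * pre c (N - i)

/-- The number of nonzero terms of index `< N`. -/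
def lam (c : ℕ → ℤ) (N : ℕ) : ℕ := ((range N).filter (fun k => c k ≠ 0)).card

lemma lam_succ (c : ℕ → ℤ) (N : ℕ) : lam c (N + 1) = lam c N + if c N ≠ 0 then 1 else 0 := by
  unfold lam
  rw [range_add_one, filter_insert]
  split_ifs with h
  · rw [card_insert_of_notMem (by simp)]
  · simp

lemma sum_abs_le {c : ℕ → ℤ} (hc : ∀ k, |c k| ≤ 9) (N : ℕ) :
    (∑ k ∈ range N, |(c k : ℝ)|) ≤ 9 * lam c N := by
  induction N with
  | zero => simp [lam]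
  | succ N ih =>
    rw [sum_range_succ, lam_succ]
    push_cast
    split_ifs with h
    · have h1 : |(c N : ℝ)| ≤ 9 := by exact_mod_cast hc N
      push_cast; linarith
    · have h0 : c N = 0 := by simpa using h
      rw [h0]; simpa using ih

variable {c : ℕ → ℤ} {η : ℝ} {τ : ℕ → ℝ}

lemma tau_rec (hτ : ∀ N, τ N = 10 ^ N * η - pre c N) (N : ℕ) :
    τ (N + 1) = 10 * τ N - c (N + 1) := by
  rw [hτ, hτ, pre]; push_cast; ring

/-- The sum of the tails. -/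
lemma sum_tau_le {D : ℝ} (hτ : ∀ N, τ N = 10 ^ N * η - pre c N) (hD : ∀ N, |τ N| ≤ D)
    (hc : ∀ k, |c k| ≤ 9) (N : ℕ) : (∑ R ∈ range N, |τ R|) ≤ D + 1 + lam c N := by
  have hrec : ∀ R, 10 * |τ R| ≤ |τ (R + 1)| + |(c (R + 1) : ℝ)| := by
    intro R
    have h := tau_rec hτ R
    have h1 : 10 * τ R = τ (R + 1) + c (R + 1) := by linarith
    calc 10 * |τ R| = |10 * τ R| := by rw [abs_mul, abs_of_pos (by norm_num : (0 : ℝ) < 10)]
      _ = |τ (R + 1) + c (R + 1)| := by rw [h1]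
      _ ≤ _ := abs_add_le _ _
  have h1 : 10 * (∑ R ∈ range N, |τ R|)
      ≤ (∑ R ∈ range N, |τ (R + 1)|) + ∑ R ∈ range N, |(c (R + 1) : ℝ)| := by
    rw [mul_sum, ← sum_add_distrib]
    exact sum_le_sum fun R _ => hrec R
  have h2 : (∑ R ∈ range N, |τ (R + 1)|) ≤ (∑ R ∈ range N, |τ R|) + D := by
    have h := sum_range_succ' (fun R => |τ R|) N
    have h' := sum_range_succ (fun R => |τ R|) N
    have h3 := hD N
    have h4 := abs_nonneg (τ 0)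
    linarith
  have h3 : (∑ R ∈ range N, |(c (R + 1) : ℝ)|) ≤ 9 * lam c N + 9 := by
    have h := sum_range_succ' (fun R => |(c R : ℝ)|) N
    have h' := sum_range_succ (fun R => |(c R : ℝ)|) N
    have h4 := sum_abs_le hc N
    have h5 := abs_nonneg (c 0 : ℝ)
    have h6 : |(c N : ℝ)| ≤ 9 := by exact_mod_cast hc N
    linarith
  have h4 : (0 : ℝ) ≤ D := (abs_nonneg _).trans (hD 0)
  linarith

/-- The key identity. -/
lemma conv_eq (hτ : ∀ N, τ N = 10 ^ N * η - pre c N) (N : ℕ) :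
    10 ^ N * η ^ 2 - conv c N = η * τ N + ∑ i ∈ range (N + 1), (c i : ℝ) * τ (N - i) := by
  have h1 : (pre c N : ℝ) = ∑ i ∈ range (N + 1), (c i : ℝ) * 10 ^ (N - i) := by
    clear hτ
    induction N with
    | zero => simp [pre]
    | succ N ih =>
      rw [pre, sum_range_succ, Nat.sub_self]
      push_cast
      rw [ih, mul_sum]
      congr 1
      · refine sum_congr rfl fun i hi => ?_
        rw [mem_range] at hi
        rw [show N + 1 - i = (N - i) + 1 by omega, pow_succ]; ring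
      · ring
  have h2 : (conv c N : ℝ) = η * pre c N - ∑ i ∈ range (N + 1), (c i : ℝ) * τ (N - i) := by
    unfold conv
    rw [h1, mul_sum, ← sum_sub_distrib]
    push_cast
    refine sum_congr rfl fun i _ => ?_
    rw [hτ]; ring
  rw [h2, hτ N]; ring

/-- The integer attached to `N`. -/
def TT (a₂ a₁ a₀ : ℤ) (c : ℕ → ℤ) (N : ℕ) : ℤ := 10 ^ N * a₀ - a₂ * conv c N - a₁ * pre c N

lemma TT_eq {a₂ a₁ a₀ : ℤ} (hτ : ∀ N, τ N = 10 ^ N * η - pre c N)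
    (h : (a₂ : ℝ) * η ^ 2 + a₁ * η = a₀) (N : ℕ) :
    (TT a₂ a₁ a₀ c N : ℝ)
      = a₂ * (η * τ N + ∑ i ∈ range (N + 1), (c i : ℝ) * τ (N - i)) + a₁ * τ N := by
  rw [← conv_eq hτ N, hτ N]
  unfold TT
  push_cast
  rw [← h]; ring

lemma double_sum_le (x y : ℕ → ℝ) (hx : ∀ i, 0 ≤ x i) (hy : ∀ i, 0 ≤ y i) (N : ℕ) :
    ∑ R ∈ range N, ∑ i ∈ range (R + 1), x i * y (R - i)
      ≤ (∑ i ∈ range N, x i) * ∑ j ∈ range N, y j := by
  rw [sum_mul_sum]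
  have h1 : ∑ R ∈ range N, ∑ i ∈ range (R + 1), x i * y (R - i)
      = ∑ q ∈ (range N).sigma (fun R => range (R + 1)), x q.2 * y (q.1 - q.2) := by
    rw [sum_sigma]
  have h2 : ∑ i ∈ range N, ∑ j ∈ range N, x i * y j = ∑ q ∈ range N ×ˢ range N, x q.1 * y q.2 := by
    rw [sum_product]
  rw [h1, h2]
  have h3 : ∑ q ∈ (range N).sigma (fun R => range (R + 1)), x q.2 * y (q.1 - q.2)
      = ∑ q ∈ ((range N).sigma (fun R => range (R + 1))).image (fun q => (q.2, q.1 - q.2)),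
        x q.1 * y q.2 := by
    rw [sum_image]
    rintro ⟨R, i⟩ hq ⟨R', i'⟩ hq' hqq
    simp only [coe_sigma, Set.mem_sigma_iff, mem_coe, mem_range] at hq hq'
    simp only [Prod.mk.injEq] at hqq
    have : R = R' := by omega
    have : i = i' := by omega
    subst_vars; rfl
  rw [h3]
  refine sum_le_sum_of_subset_of_nonneg ?_ fun q _ _ => mul_nonneg (hx _) (hy _)
  intro q hq
  simp only [mem_image, mem_sigma, mem_range, Sigma.exists] at hq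
  obtain ⟨R, i, ⟨h4, h5⟩, rfl⟩ := hq
  simp only [mem_product, mem_range]
  omega

/-- Upper bound for the sum of the `|T(R)|`. -/
lemma sum_TT_le {a₂ a₁ a₀ : ℤ} {D : ℝ} (hτ : ∀ N, τ N = 10 ^ N * η - pre c N)
    (hD : ∀ N, |τ N| ≤ D) (hc : ∀ k, |c k| ≤ 9) (h : (a₂ : ℝ) * η ^ 2 + a₁ * η = a₀) (N : ℕ) :
    ∑ R ∈ range N, |(TT a₂ a₁ a₀ c R : ℝ)|
      ≤ (|(a₂ : ℝ)| * (|η| + 9 * lam c N) + |(a₁ : ℝ)|) * (D + 1 + lam c N) := by
  have hS := sum_tau_le hτ hD hc N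
  have hD0 : (0 : ℝ) ≤ D := (abs_nonneg _).trans (hD 0)
  have h1 : ∀ R, |(TT a₂ a₁ a₀ c R : ℝ)| ≤ (|(a₂ : ℝ)| * |η| + |(a₁ : ℝ)|) * |τ R|
      + |(a₂ : ℝ)| * ∑ i ∈ range (R + 1), |(c i : ℝ)| * |τ (R - i)| := by
    intro R
    rw [TT_eq hτ h R]
    have h2 : |∑ i ∈ range (R + 1), (c i : ℝ) * τ (R - i)|
        ≤ ∑ i ∈ range (R + 1), |(c i : ℝ)| * |τ (R - i)| := by
      refine (abs_sum_le_sum_abs _ _).trans (le_of_eq ?_)
      exact sum_congr rfl fun i _ => abs_mul _ _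
    calc |(a₂ : ℝ) * (η * τ R + ∑ i ∈ range (R + 1), (c i : ℝ) * τ (R - i)) + a₁ * τ R|
        ≤ |(a₂ : ℝ) * (η * τ R + ∑ i ∈ range (R + 1), (c i : ℝ) * τ (R - i))| + |a₁ * τ R| :=
          abs_add_le _ _
      _ ≤ |(a₂ : ℝ)| * (|η * τ R| + |∑ i ∈ range (R + 1), (c i : ℝ) * τ (R - i)|) + |a₁ * τ R| := by
          rw [abs_mul (a₂ : ℝ)]
          gcongr
          exact abs_add_le _ _
      _ ≤ |(a₂ : ℝ)| * (|η| * |τ R| + ∑ i ∈ range (R + 1), |(c i : ℝ)| * |τ (R - i)|)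
          + |(a₁ : ℝ)| * |τ R| := by
          rw [abs_mul η, abs_mul (a₁ : ℝ)]
          gcongr
      _ = _ := by ring
  have h3 : ∑ R ∈ range N, ∑ i ∈ range (R + 1), |(c i : ℝ)| * |τ (R - i)|
      ≤ (9 * lam c N) * (D + 1 + lam c N) := by
    refine (double_sum_le (fun i => |(c i : ℝ)|) (fun j => |τ j|) (fun i => abs_nonneg _)
      (fun i => abs_nonneg _) N).trans ?_
    exact mul_le_mul (sum_abs_le hc N) hS (sum_nonneg fun i _ => abs_nonneg _) (by positivity)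
  calc ∑ R ∈ range N, |(TT a₂ a₁ a₀ c R : ℝ)|
      ≤ ∑ R ∈ range N, ((|(a₂ : ℝ)| * |η| + |(a₁ : ℝ)|) * |τ R|
        + |(a₂ : ℝ)| * ∑ i ∈ range (R + 1), |(c i : ℝ)| * |τ (R - i)|) := sum_le_sum fun R _ => h1 R
    _ = (|(a₂ : ℝ)| * |η| + |(a₁ : ℝ)|) * (∑ R ∈ range N, |τ R|)
        + |(a₂ : ℝ)| * ∑ R ∈ range N, ∑ i ∈ range (R + 1), |(c i : ℝ)| * |τ (R - i)| := by
        rw [sum_add_distrib, mul_sum, mul_sum]
    _ ≤ (|(a₂ : ℝ)| * |η| + |(a₁ : ℝ)|) * (D + 1 + lam c N)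
        + |(a₂ : ℝ)| * ((9 * lam c N) * (D + 1 + lam c N)) := by gcongr
    _ = _ := by ring

/-- If `T(R) ≠ 0` for at least `δ N - A (lam + 1)` of the `R < N`, then `N ≤ C (lam + 1) ^ 2`. -/
theorem main_count {a₂ a₁ a₀ : ℤ} {D A : ℝ} (hτ : ∀ N, τ N = 10 ^ N * η - pre c N)
    (hD : ∀ N, |τ N| ≤ D) (hc : ∀ k, |c k| ≤ 9) (h : (a₂ : ℝ) * η ^ 2 + a₁ * η = a₀)
    (hA : 0 ≤ A)
    (hT : ∀ N : ℕ, (N : ℝ) / 2 - A * (lam c N + 1)
      ≤ (((range N).filter (fun R => TT a₂ a₁ a₀ c R ≠ 0)).card : ℝ)) :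
    ∃ C : ℝ, 0 < C ∧ ∀ N : ℕ, (N : ℝ) ≤ C * (lam c N + 1) ^ 2 := by
  have hD0 : (0 : ℝ) ≤ D := (abs_nonneg _).trans (hD 0)
  refine ⟨2 * ((|(a₂ : ℝ)| * (|η| + 9) + |(a₁ : ℝ)|) * (D + 1) + A) + 1, by positivity, fun N => ?_⟩
  have h1 := sum_TT_le hτ hD hc h N
  have h2 : (((range N).filter (fun R => TT a₂ a₁ a₀ c R ≠ 0)).card : ℝ)
      ≤ ∑ R ∈ range N, |(TT a₂ a₁ a₀ c R : ℝ)| := by
    calc (((range N).filter (fun R => TT a₂ a₁ a₀ c R ≠ 0)).card : ℝ)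
        = ∑ R ∈ (range N).filter (fun R => TT a₂ a₁ a₀ c R ≠ 0), (1 : ℝ) := by simp
      _ ≤ ∑ R ∈ (range N).filter (fun R => TT a₂ a₁ a₀ c R ≠ 0), |(TT a₂ a₁ a₀ c R : ℝ)| := by
          refine sum_le_sum fun R hR => ?_
          have := Int.one_le_abs (mem_filter.1 hR).2
          exact_mod_cast this
      _ ≤ _ := sum_le_sum_of_subset_of_nonneg (filter_subset _ _) fun _ _ _ => abs_nonneg _
  have h3 := hT N
  set l : ℝ := (lam c N : ℝ) with hl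
  have hl0 : 0 ≤ l := by positivity
  have h4 : (|(a₂ : ℝ)| * (|η| + 9 * l) + |(a₁ : ℝ)|) * (D + 1 + l)
      ≤ ((|(a₂ : ℝ)| * (|η| + 9) + |(a₁ : ℝ)|) * (D + 1)) * (l + 1) ^ 2 := by
    have h5 : |(a₂ : ℝ)| * (|η| + 9 * l) + |(a₁ : ℝ)|
        ≤ (|(a₂ : ℝ)| * (|η| + 9) + |(a₁ : ℝ)|) * (l + 1) := by
      have := abs_nonneg (a₂ : ℝ)
      have := abs_nonneg (a₁ : ℝ)
      have := abs_nonneg η
      nlinarith [mul_nonneg (abs_nonneg (a₂ : ℝ)) (abs_nonneg η),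
        mul_nonneg (mul_nonneg (abs_nonneg (a₂ : ℝ)) (abs_nonneg η)) hl0,
        mul_nonneg (abs_nonneg (a₁ : ℝ)) hl0]
    have h6 : D + 1 + l ≤ (D + 1) * (l + 1) := by nlinarith
    calc _ ≤ ((|(a₂ : ℝ)| * (|η| + 9) + |(a₁ : ℝ)|) * (l + 1)) * ((D + 1) * (l + 1)) :=
          mul_le_mul h5 h6 (by positivity) (by positivity)
      _ = _ := by ring
  have h5 : A * (l + 1) ≤ A * (l + 1) ^ 2 := by
    refine mul_le_mul_of_nonneg_left ?_ hA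
    nlinarith
  have h6 : (0 : ℝ) ≤ (l + 1) ^ 2 := by positivity
  nlinarith

end Sqrt2Digits
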