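import Pool.Agent.Sqrt2Digits.Main

set_option autoImplicit false

/-!
The decimal digits of `√2`: distance to eventually periodic sequences, and the conclusion.
-/

open Finset

namespace Sqrt2Digits

/-- The general periodic case: the period is neither all `0` nor all `9`. -/
theorem case_gen {w : ℕ → ℤ} {K m : ℕ} (h0 : ∀ k, 0 ≤ w k) (h9 : ∀ k, w k ≤ 9) (hm : 0 < m)
    (hper : ∀ k ≥ K, w (k + m) = w k) (hn0 : ¬ ∀ k, K < k → w k = 0)
    (hn9 : ¬ ∀ k, K < k → w k = 9) :
    ∃ C : ℝ, 0 < C ∧ ∀ N : ℕ, (N : ℝ) ≤ C * (lam (fun k => (digit k : ℤ) - w k) N + 1) ^ 2 := by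
  set B : ℤ := block w K m with hB
  set Q : ℤ := 10 ^ m - 1 with hQ
  set P : ℤ := pre w K with hP
  have hQ1 : 1 < Q := by
    have : (10 : ℤ) ^ 1 ≤ 10 ^ m := pow_le_pow_right₀ (by norm_num) hm
    rw [hQ]; linarith
  have hB0 : 0 ≤ B := block_nonneg h0 K m
  have hBQ : B ≤ Q := block_le h9 K m
  have hBne0 : B ≠ 0 := fun h => hn0 (const_of_block hm hper (block_eq_zero h0 K m h))
  have hBneQ : B ≠ Q := fun h => hn9 (const_of_block hm hper (block_eq_nine h9 K m h))
  have hBlt : B < Q := lt_of_le_of_ne hBQ hBneQ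
  have hBpos : 0 < B := lt_of_le_of_ne hB0 (Ne.symm hBne0)
  set u0 : ℤ := Q * P + B with hu0
  have hnd : ¬ Q ∣ u0 := by
    intro h
    have h1 : Q ∣ B := by
      have := (Int.dvd_add_right (dvd_mul_right Q P)).1 h
      exact this
    have := Int.le_of_dvd hBpos h1
    omega
  -- coprime representatives
  have hgpos : 0 < Int.gcd u0 Q := Int.gcd_pos_of_ne_zero_right _ (by omega)
  obtain ⟨u, v', hcop, hu, hv⟩ := Int.exists_gcd_one hgpos
  set g : ℤ := (Int.gcd u0 Q : ℤ) with hg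
  have hg0 : 0 < g := by rw [hg]; exact_mod_cast hgpos
  have hv'1 : v'.natAbs ≠ 1 := by
    intro h
    apply hnd
    rcases Int.natAbs_eq v' with h1 | h1
    · rw [h] at h1
      have : Q = g := by rw [hv, h1]; simp
      rw [this, hu]; exact dvd_mul_left _ _
    · rw [h] at h1
      have : Q = -g := by rw [hv, h1]; simp
      omega
  obtain ⟨p, hp, hpv⟩ := Nat.exists_prime_and_dvd hv'1
  have hpv' : (p : ℤ) ∣ v' := Int.natCast_dvd.2 hpv
  have hpQ : (p : ℤ) ∣ Q := by rw [hv]; exact hpv'.mul_right _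
  have hpu : ¬ (p : ℤ) ∣ u := by
    intro h
    have h1 : (p : ℤ) ∣ (Int.gcd u v' : ℤ) := Int.dvd_coe_gcd h hpv'
    rw [hcop] at h1
    have h2 : p ∣ 1 := by exact_mod_cast h1
    exact hp.one_lt.ne' (Nat.dvd_one.1 h2)
  have hpp : Prime (p : ℤ) := Nat.prime_iff_prime_int.1 hp
  have hp10 : ¬ (p : ℤ) ∣ 10 := by
    intro h
    have h1 : (p : ℤ) ∣ 10 ^ m := dvd_pow h hm.ne'
    have h2 : (p : ℤ) ∣ 10 ^ m - Q := dvd_sub h1 hpQ
    rw [hQ] at h2
    have h3 : (p : ℤ) ∣ 1 := by simpa using h2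
    have h4 : p ∣ 1 := by exact_mod_cast h3
    exact hp.one_lt.ne' (Nat.dvd_one.1 h4)
  have hv'0 : v' ≠ 0 := by
    rintro rfl
    simp at hv
    omega
  -- the rational `r`
  have hQr : (0 : ℝ) < Q := by exact_mod_cast (by omega : 0 < Q)
  set r : ℝ := (u0 : ℝ) / (10 ^ K * Q) with hr
  set t : ℕ → ℝ := fun M => 10 ^ M * r - pre w M with ht
  have htrec : ∀ M, t (M + 1) = 10 * t M - w (M + 1) := fun M => tau_rec (fun N => rfl) M
  have htK : t K = B / Q := by
    simp only [ht, hr, ← hP, hu0]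
    push_cast
    field_simp
    ring
  have htKm : t (K + m) = t K := by
    rw [htK]
    simp only [ht, hr, pre_add, ← hP, ← hB, hu0]
    have hQ' : (Q : ℝ) = 10 ^ m - 1 := by rw [hQ]; push_cast; ring
    have h10 : (10 : ℝ) ^ K ≠ 0 := by positivity
    push_cast
    rw [pow_add]
    field_simp
    rw [hQ']
    ring
  have htper : ∀ j, t (K + m + j) = t (K + j) := by
    intro j
    induction j with
    | zero => exact htKm
    | succ j ih =>
      rw [← add_assoc, ← add_assoc, htrec, htrec, ih, show K + m + j + 1 = (K + j + 1) + m by ring,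
        hper (K + j + 1) (by omega)]
  set D : ℝ := ∑ M ∈ range (K + m), |t M| with hD
  have hD0 : 0 ≤ D := sum_nonneg fun _ _ => abs_nonneg _
  have htD : ∀ M, |t M| ≤ D := by
    intro M
    induction M using Nat.strong_induction_on with
    | _ M ih =>
      by_cases hM : M < K + m
      · exact single_le_sum (f := fun M => |t M|) (fun _ _ => abs_nonneg _) (mem_range.2 hM)
      · have h1 := htper (M - (K + m))
        rw [show K + m + (M - (K + m)) = M by omega] at h1
        rw [h1]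
        exact ih _ (by omega)
  set η : ℝ := Real.sqrt 2 - r with hη
  set c : ℕ → ℤ := fun k => (digit k : ℤ) - w k with hc
  have hprec : ∀ N, ((pre c N : ℤ) : ℝ) = (⌊Real.sqrt 2 * 10 ^ N⌋₊ : ℝ) - pre w N := fun N => by
    rw [hc, pre_sub, pre_digit]; push_cast; rfl
  set V : ℤ := 10 ^ K * v' with hV
  have hVr : r * V = u := by
    have h1 : (u0 : ℝ) = u * g := by exact_mod_cast hu
    have h2 : (Q : ℝ) = v' * g := by exact_mod_cast hv
    have h3 : (g : ℝ) ≠ 0 := by exact_mod_cast hg0.ne'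
    have h4 : (v' : ℝ) ≠ 0 := by exact_mod_cast hv'0
    rw [hr, hV, h1, h2]
    push_cast
    field_simp
  have hrel : ((V ^ 2 : ℤ) : ℝ) * η ^ 2 + ((2 * u * V : ℤ) : ℝ) * η = ((2 * V ^ 2 - u ^ 2 : ℤ) : ℝ) := by
    have hs := sqrt_sq
    push_cast
    rw [hη, ← hVr]
    linear_combination (V : ℝ) ^ 2 * hs
  refine main_count (η := η) (τ := fun N => 10 ^ N * η - pre c N) (a₂ := V ^ 2) (a₁ := 2 * u * V)
    (a₀ := 2 * V ^ 2 - u ^ 2) (D := 1 + D) (A := 0) (fun N => rfl) (fun N => ?_) (fun k => ?_)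
    hrel le_rfl ?_
  · have h1 := tail_bounds N
    have h2 := htD N
    have h3 : (10 : ℝ) ^ N * η - pre c N
        = (10 ^ N * Real.sqrt 2 - (⌊Real.sqrt 2 * 10 ^ N⌋₊ : ℝ)) - t N := by
      rw [hprec, hη]; simp only [ht]; ring
    rw [h3]
    refine (abs_sub _ _).trans ?_
    rw [abs_of_pos h1.1]
    linarith [h1.2]
  · have h1 := digit_le k
    have h2 := h0 k
    have h3 := h9 k
    simp only [hc]
    rw [abs_le]
    constructor <;> omega
  · intro N
    have hne : ∀ R, TT (V ^ 2) (2 * u * V) (2 * V ^ 2 - u ^ 2) c R ≠ 0 := by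
      intro R hT
      have hpV : (p : ℤ) ∣ V := hpv'.mul_left _
      obtain ⟨z, hz⟩ := hpV
      have h1 : (p : ℤ) ∣ 10 ^ R * u ^ 2 := by
        unfold TT at hT
        refine ⟨10 ^ R * (2 * z * V) - z * V * conv c R - 2 * u * z * pre c R, ?_⟩
        have h2 : 10 ^ R * u ^ 2 = 10 ^ R * (2 * V ^ 2) - V ^ 2 * conv c R - 2 * u * V * pre c R := by
          linarith
        rw [h2]
        have h3 : V ^ 2 = p * (z * V) := by rw [pow_two]; nth_rewrite 1 [hz]; ring
        rw [h3]
        nth_rewrite 3 [hz]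
        ring
      rcases hpp.dvd_or_dvd h1 with h | h
      · exact hp10 (hpp.dvd_of_dvd_pow h)
      · exact hpu (hpp.dvd_of_dvd_pow h)
    rw [filter_true_of_mem (fun R _ => hne R), card_range]
    have : (0 : ℝ) ≤ N := by positivity
    linarith

lemma lam_le {c d : ℕ → ℤ} {K : ℕ} (h : ∀ k, K < k → c k ≠ 0 → d k ≠ 0) (N : ℕ) :
    lam c N ≤ lam d N + (K + 1) := by
  unfold lam
  calc ((range N).filter (fun k => c k ≠ 0)).card
      ≤ ((range N).filter (fun k => d k ≠ 0) ∪ range (K + 1)).card := by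
        refine card_le_card fun k hk => ?_
        simp only [mem_filter, mem_range] at hk
        simp only [mem_union, mem_filter, mem_range]
        by_cases h1 : K < k
        · exact Or.inl ⟨hk.1, h k h1 hk.2⟩
        · right; omega
    _ ≤ _ := (card_union_le _ _).trans (by rw [card_range])

lemma transfer {c d : ℕ → ℤ} {K : ℕ} (h : ∀ k, K < k → c k ≠ 0 → d k ≠ 0)
    (hC : ∃ C : ℝ, 0 < C ∧ ∀ N : ℕ, (N : ℝ) ≤ C * (lam c N + 1) ^ 2) :
    ∃ C : ℝ, 0 < C ∧ ∀ N : ℕ, (N : ℝ) ≤ C * (lam d N + 1) ^ 2 := by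
  obtain ⟨C, hC0, hC⟩ := hC
  refine ⟨C * ((K : ℝ) + 2) ^ 2, by positivity, fun N => (hC N).trans ?_⟩
  have h1 : (lam c N : ℝ) ≤ lam d N + (K + 1) := by exact_mod_cast lam_le h N
  have h2 : (0 : ℝ) ≤ lam d N := by positivity
  have h3 : (0 : ℝ) ≤ K := by positivity
  have h4 : (lam c N : ℝ) + 1 ≤ ((K : ℝ) + 2) * (lam d N + 1) := by nlinarith
  rw [mul_assoc, ← mul_pow]
  gcongr

/-- The bound for every eventually periodic sequence of digits. -/
theorem main_all {w : ℕ → ℕ} (h9 : ∀ k, w k ≤ 9) {K m : ℕ} (hm : 0 < m)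
    (hper : ∀ k ≥ K, w (k + m) = w k) :
    ∃ C : ℝ, 0 < C ∧
      ∀ N : ℕ, (N : ℝ) ≤ C * (lam (fun k => (digit k : ℤ) - (w k : ℤ)) N + 1) ^ 2 := by
  by_cases hz : ∀ k, K < k → (w k : ℤ) = 0
  · refine transfer (K := K) (fun k hk h => ?_) case_zero
    rw [hz k hk]; simpa using h
  by_cases hn : ∀ k, K < k → (w k : ℤ) = 9
  · refine transfer (K := K) (fun k hk h => ?_) case_nine
    rw [hn k hk]
    cases k with
    | zero => omega
    | succ k =>
      simp only [dig9] at h
      omega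
  · exact case_gen (w := fun k => (w k : ℤ)) (fun k => by positivity)
      (fun k => by exact_mod_cast h9 k) hm (fun k hk => by exact_mod_cast hper k hk) hz hn

/-- `c √N ≤ #{1 ≤ k ≤ N : d_k ≠ w_k}` for large `N`. -/
theorem main_sqrt {w : ℕ → ℕ} (h9 : ∀ k, w k ≤ 9) {K m : ℕ} (hm : 0 < m)
    (hper : ∀ k ≥ K, w (k + m) = w k) :
    ∃ c : ℝ, 0 < c ∧ ∀ᶠ N : ℕ in Filter.atTop,
      c * Real.sqrt N ≤ (((Icc 1 N).filter (fun k => digit k ≠ w k)).card : ℝ) := by
  obtain ⟨C, hC0, hC⟩ := main_all h9 hm hper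
  refine ⟨1 / (2 * Real.sqrt C), by positivity, ?_⟩
  have hlim : Filter.Tendsto (fun N : ℕ => (N : ℝ)) Filter.atTop Filter.atTop :=
    tendsto_natCast_atTop_atTop
  filter_upwards [hlim.eventually_ge_atTop (16 * C)] with N hN
  set x : ℝ := (((Icc 1 N).filter (fun k => digit k ≠ w k)).card : ℝ) with hx
  have hx0 : 0 ≤ x := by positivity
  have h1 : (lam (fun k => (digit k : ℤ) - (w k : ℤ)) N : ℝ) ≤ x + 1 := by
    rw [hx]
    have : lam (fun k => (digit k : ℤ) - (w k : ℤ)) N
        ≤ ((Icc 1 N).filter (fun k => digit k ≠ w k)).card + 1 := by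
      unfold lam
      calc ((range N).filter (fun k => (digit k : ℤ) - (w k : ℤ) ≠ 0)).card
          ≤ ((Icc 1 N).filter (fun k => digit k ≠ w k) ∪ {0}).card := by
            refine card_le_card fun k hk => ?_
            simp only [mem_filter, mem_range] at hk
            simp only [mem_union, mem_filter, mem_Icc, mem_singleton]
            by_cases h0 : k = 0
            · exact Or.inr h0
            · left
              refine ⟨⟨by omega, by omega⟩, ?_⟩
              intro h
              apply hk.2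
              rw [h]; ring
        _ ≤ _ := (card_union_le _ _).trans (by simp)
    exact_mod_cast this
  have h2 := hC N
  have h3 : (N : ℝ) ≤ C * (x + 2) ^ 2 := by
    refine h2.trans ?_
    have : (0 : ℝ) ≤ lam (fun k => (digit k : ℤ) - (w k : ℤ)) N := by positivity
    gcongr ?_ * ?_ ^ 2
    linarith
  have h4 : Real.sqrt N ≤ Real.sqrt C * (x + 2) := by
    have h5 : Real.sqrt (C * (x + 2) ^ 2) = Real.sqrt C * (x + 2) := by
      rw [Real.sqrt_mul hC0.le, Real.sqrt_sq (by linarith)]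
    rw [← h5]
    exact Real.sqrt_le_sqrt h3
  have hsC : 0 < Real.sqrt C := Real.sqrt_pos.2 hC0
  have h6 : 4 * Real.sqrt C ≤ Real.sqrt N := by
    have : Real.sqrt (16 * C) = 4 * Real.sqrt C := by
      rw [Real.sqrt_mul (by norm_num), show (16 : ℝ) = 4 ^ 2 by norm_num,
        Real.sqrt_sq (by norm_num)]
    rw [← this]
    exact Real.sqrt_le_sqrt hN
  rw [div_mul_eq_mul_div, one_mul, div_le_iff₀ (by positivity)]
  nlinarith

/-- Two different digits occur at least `c √N` times each among the first `N` digits. -/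
theorem two_digits :
    ∃ c : ℝ, 0 < c ∧ ∀ᶠ N : ℕ in Filter.atTop, ∃ a b : ℕ, a ≤ 9 ∧ b ≤ 9 ∧ a ≠ b ∧
      c * Real.sqrt N ≤ (((Icc 1 N).filter (fun k => digit k = a)).card : ℝ) ∧
      c * Real.sqrt N ≤ (((Icc 1 N).filter (fun k => digit k = b)).card : ℝ) := by
  have hconst : ∀ a : ℕ, ∃ c : ℝ, 0 < c ∧ (a ≤ 9 → ∀ᶠ N : ℕ in Filter.atTop,
      c * Real.sqrt N ≤ (((Icc 1 N).filter (fun k => digit k ≠ a)).card : ℝ)) := by
    intro a
    by_cases ha : a ≤ 9
    · obtain ⟨c, hc, h⟩ := main_sqrt (w := fun _ => a) (fun _ => ha) (K := 0) (m := 1) one_pos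
        (fun _ _ => rfl)
      exact ⟨c, hc, fun _ => h⟩
    · exact ⟨1, one_pos, fun h => absurd h ha⟩
  choose c hc hcN using hconst
  -- a uniform constant
  obtain ⟨c0, hc0, hc0le⟩ : ∃ c0 : ℝ, 0 < c0 ∧ ∀ a ≤ 9, c0 ≤ c a := by
    have hne10 : (range 10).Nonempty := nonempty_range_iff.2 (by norm_num)
    refine ⟨(range 10).inf' hne10 c, ?_, fun a ha => ?_⟩
    · rw [lt_inf'_iff]; exact fun a _ => hc a
    · exact inf'_le _ (mem_range.2 (by omega))
  have hall : ∀ᶠ N : ℕ in Filter.atTop, ∀ a ∈ range 10,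
      c a * Real.sqrt N ≤ (((Icc 1 N).filter (fun k => digit k ≠ a)).card : ℝ) := by
    rw [Filter.eventually_all_finset]
    intro a ha
    exact hcN a (by have := mem_range.1 ha; omega)
  refine ⟨min (c0 / 9) (1 / 10), by positivity, ?_⟩
  filter_upwards [hall, Filter.eventually_ge_atTop 1] with N hN hN1
  -- the most frequent digit
  set cnt : ℕ → ℕ := fun a => ((Icc 1 N).filter (fun k => digit k = a)).card with hcnt
  have hsum : ∑ a ∈ range 10, cnt a = N := by
    have h := card_eq_sum_card_fiberwise (f := digit) (s := Icc 1 N) (t := range 10)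
      (fun k _ => by
        simp only [coe_range, Set.mem_Iio]
        have := digit_le k; omega)
    rw [Nat.card_Icc] at h
    simp only [hcnt]
    omega
  obtain ⟨a, ha, hamax⟩ := exists_max_image (range 10) cnt ⟨0, by simp⟩
  have ha10 : (N : ℝ) / 10 ≤ cnt a := by
    have h1 : ∑ b ∈ range 10, cnt b ≤ (range 10).card • cnt a := sum_le_card_nsmul _ _ _ hamax
    rw [hsum, card_range, smul_eq_mul] at h1
    have h2 : (N : ℝ) ≤ 10 * cnt a := by exact_mod_cast h1
    linarith
  have hne : ((Icc 1 N).filter (fun k => digit k ≠ a)).card = ∑ b ∈ (range 10).erase a, cnt b := by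
    have h1 : ((Icc 1 N).filter (fun k => digit k ≠ a)).card + cnt a = N := by
      have := card_filter_add_card_filter_not (s := Icc 1 N) (fun k => digit k = a)
      rw [Nat.card_Icc] at this
      simp only [hcnt, ne_eq]
      omega
    have h2 := add_sum_erase (range 10) cnt ha
    omega
  obtain ⟨b, hb, hbmax⟩ := exists_max_image ((range 10).erase a) cnt (by
    rw [← card_pos, card_erase_of_mem ha, card_range]; norm_num)
  have hb9 : (((Icc 1 N).filter (fun k => digit k ≠ a)).card : ℝ) ≤ 9 * cnt b := by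
    have h1 : ∑ d ∈ (range 10).erase a, cnt d ≤ ((range 10).erase a).card • cnt b :=
      sum_le_card_nsmul _ _ _ hbmax
    rw [← hne, card_erase_of_mem ha, card_range, smul_eq_mul] at h1
    exact_mod_cast h1
  have hsN : 0 ≤ Real.sqrt N := Real.sqrt_nonneg _
  refine ⟨a, b, by have := mem_range.1 ha; omega,
    by have := mem_range.1 (mem_of_mem_erase hb); omega, (ne_of_mem_erase hb).symm, ?_, ?_⟩
  · have h1 : Real.sqrt N ≤ N := by
      rw [Real.sqrt_le_left (by positivity)]
      have : (1 : ℝ) ≤ N := by exact_mod_cast hN1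
      nlinarith
    calc min (c0 / 9) (1 / 10) * Real.sqrt N ≤ 1 / 10 * Real.sqrt N := by
          gcongr; exact min_le_right _ _
      _ ≤ 1 / 10 * N := by gcongr
      _ ≤ cnt a := by linarith
  · have h1 := hN a ha
    have h2 : c0 ≤ c a := hc0le a (by have := mem_range.1 ha; omega)
    calc min (c0 / 9) (1 / 10) * Real.sqrt N ≤ c0 / 9 * Real.sqrt N := by
          gcongr; exact min_le_left _ _
      _ ≤ c a / 9 * Real.sqrt N := by gcongr
      _ ≤ cnt b := by linarith

end Sqrt2Digits
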