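import Pool.Agent.Sqrt2Digits.Basic

set_option autoImplicit false

/-!
The gap argument: nonnegative sparse digits `c`, `0 < τ < 1`, `-ξ^2 + 4 ξ = 2`.
-/

open Finset

namespace Sqrt2Digits

/-- Hypotheses on a digit sequence of `ξ = 2 - √2`. -/
structure Hyp (c : ℕ → ℤ) (ξ : ℝ) (τ : ℕ → ℝ) : Prop where
  hτ : ∀ N, τ N = 10 ^ N * ξ - pre c N
  pos : ∀ N, 0 < τ N
  lt : ∀ N, τ N < 1
  c0 : ∀ k, 0 ≤ c k
  c9 : ∀ k, c k ≤ 9
  hξ : (((-1 : ℤ) : ℝ)) * ξ ^ 2 + ((4 : ℤ) : ℝ) * ξ = ((2 : ℤ) : ℝ)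
  ξ0 : 0 < ξ
  ξ1 : ξ < 1

variable {c : ℕ → ℤ} {ξ : ℝ} {τ : ℕ → ℝ}

lemma Hyp.exists_next (H : Hyp c ξ τ) (N : ℕ) : ∃ g, 1 ≤ g ∧ c (N + g) ≠ 0 := by
  by_contra hcon
  push Not at hcon
  have h1 : ∀ j, τ (N + j) = 10 ^ j * τ N := by
    intro j
    induction j with
    | zero => simp
    | succ j ih =>
      rw [← add_assoc, tau_rec H.hτ, ih]
      have h2 := hcon (j + 1) (by omega)
      rw [← add_assoc] at h2
      rw [h2]; push_cast; ring
  obtain ⟨j, hj⟩ := pow_unbounded_of_one_lt (1 / τ N) (show (1 : ℝ) < 10 by norm_num)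
  have h3 := H.lt (N + j)
  rw [h1] at h3
  have h4 := H.pos N
  rw [div_lt_iff₀ h4] at hj
  linarith

open Classical in
/-- The distance to the next nonzero digit. -/
noncomputable def gup (c : ℕ → ℤ) (N : ℕ) : ℕ :=
  if h : ∃ g, 1 ≤ g ∧ c (N + g) ≠ 0 then Nat.find h else 0

lemma Hyp.gup_spec (H : Hyp c ξ τ) (N : ℕ) : 1 ≤ gup c N ∧ c (N + gup c N) ≠ 0 := by
  unfold gup
  rw [dif_pos (H.exists_next N)]
  exact Nat.find_spec (H.exists_next N)

lemma Hyp.gup_min (H : Hyp c ξ τ) {N j : ℕ} (h1 : 1 ≤ j) (h2 : j < gup c N) : c (N + j) = 0 := by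
  unfold gup at h2
  rw [dif_pos (H.exists_next N)] at h2
  have := Nat.find_min (H.exists_next N) h2
  push Not at this
  exact this h1

lemma Hyp.gup_le (H : Hyp c ξ τ) {N j : ℕ} (h1 : 1 ≤ j) (h2 : c (N + j) ≠ 0) : gup c N ≤ j := by
  by_contra h
  push Not at h
  exact h2 (H.gup_min h1 h)

lemma Hyp.tau_bounds (H : Hyp c ξ τ) (N : ℕ) :
    1 < 10 ^ gup c N * τ N ∧ 10 ^ gup c N * τ N < 10 := by
  obtain ⟨hg1, hg2⟩ := H.gup_spec N
  have h1 : ∀ j, j < gup c N → τ (N + j) = 10 ^ j * τ N := by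
    intro j
    induction j with
    | zero => intro _; simp
    | succ j ih =>
      intro hj
      rw [← add_assoc, tau_rec H.hτ, ih (by omega)]
      have h2 := H.gup_min (by omega : 1 ≤ j + 1) hj
      rw [← add_assoc] at h2
      rw [h2]; push_cast; ring
  obtain ⟨k, hk⟩ : ∃ k, gup c N = k + 1 := ⟨gup c N - 1, by omega⟩
  have h2 := tau_rec H.hτ (N + k)
  rw [h1 k (by omega)] at h2
  rw [hk, ← add_assoc] at hg2
  have h3 : 1 ≤ c (N + k + 1) := by have := H.c0 (N + k + 1); omega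
  have h4 : (1 : ℝ) ≤ c (N + k + 1) := by exact_mod_cast h3
  have h5 : (c (N + k + 1) : ℝ) ≤ 9 := by exact_mod_cast H.c9 (N + k + 1)
  have h6 := H.pos (N + k + 1)
  have h7 := H.lt (N + k + 1)
  rw [hk, pow_succ]
  constructor <;> linarith

/-- Liouville type bound. -/
lemma Hyp.gup_le_succ (H : Hyp c ξ τ) (N : ℕ) : gup c N ≤ N + 1 := by
  have hτ := H.hτ N
  have h0 := H.pos N
  have h1 := H.lt N
  have hξ := H.hξ
  push_cast at hξ
  have hp : (0 : ℝ) < 10 ^ N := by positivity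
  have hp1 : (1 : ℝ) ≤ 10 ^ N := one_le_pow₀ (by norm_num)
  set b : ℤ := pre c N with hb
  have hbξ : (b : ℝ) = 10 ^ N * ξ - τ N := by linarith
  have hb1 : (b : ℝ) < 10 ^ N := by nlinarith [H.ξ1]
  have key : ((2 * (10 : ℤ) ^ (2 * N) - 4 * 10 ^ N * b + b ^ 2 : ℤ) : ℝ)
      = τ N * (4 * 10 ^ N - 2 * b - τ N) := by
    push_cast
    have h2 : (2 : ℝ) * 10 ^ (2 * N) = 10 ^ N * 10 ^ N * (-ξ ^ 2 + 4 * ξ) := by
      rw [show (-ξ ^ 2 + 4 * ξ) = 2 by linarith, ← pow_add]; ring
    rw [h2, hbξ]; ring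
  have h2 : (0 : ℝ) < τ N * (4 * 10 ^ N - 2 * b - τ N) := mul_pos h0 (by linarith)
  rw [← key] at h2
  have h3 : 0 < 2 * (10 : ℤ) ^ (2 * N) - 4 * 10 ^ N * b + b ^ 2 := by exact_mod_cast h2
  have h4 : (1 : ℝ) ≤ ((2 * (10 : ℤ) ^ (2 * N) - 4 * 10 ^ N * b + b ^ 2 : ℤ) : ℝ) := by
    exact_mod_cast h3
  rw [key] at h4
  have hpre : ∀ n, 0 ≤ pre c n := by
    intro n
    induction n with
    | zero => exact H.c0 0
    | succ n ih => rw [pre]; have := H.c0 (n + 1); omega
  have hb0 : (0 : ℝ) ≤ b := by exact_mod_cast hpre N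
  have h5 : 1 ≤ τ N * (4 * 10 ^ N) := by nlinarith
  obtain ⟨-, h6⟩ := H.tau_bounds N
  by_contra hcon
  push Not at hcon
  obtain ⟨k, hk⟩ : ∃ k, gup c N = N + 2 + k := ⟨gup c N - (N + 2), by omega⟩
  rw [hk, pow_add, pow_add] at h6
  have h7 : (1 : ℝ) ≤ 10 ^ k := one_le_pow₀ (by norm_num)
  have h8 : (0 : ℝ) < 10 ^ N * τ N := by positivity
  nlinarith [mul_le_mul_of_nonneg_left h7 (show (0 : ℝ) ≤ 100 * (10 ^ N * τ N) by positivity)]

/-- The last nonzero digit at or before `N` (or `0`). -/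
noncomputable def ydn (c : ℕ → ℤ) (N : ℕ) : ℕ := Nat.findGreatest (fun k => c k ≠ 0) N

lemma ydn_le (c : ℕ → ℤ) (N : ℕ) : ydn c N ≤ N := Nat.findGreatest_le N

lemma ydn_ne {N : ℕ} (h : ydn c N ≠ 0) : c (ydn c N) ≠ 0 :=
  Nat.findGreatest_of_ne_zero (P := fun k => c k ≠ 0) rfl h

lemma zero_of_ydn_lt {N k : ℕ} (h1 : ydn c N < k) (h2 : k ≤ N) : c k = 0 := by
  have := Nat.findGreatest_is_greatest (P := fun k => c k ≠ 0) h1 h2
  simpa using this

lemma le_ydn {N k : ℕ} (h1 : k ≤ N) (h2 : c k ≠ 0) : k ≤ ydn c N :=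
  Nat.le_findGreatest (P := fun k => c k ≠ 0) h1 h2

/-- Consequence of `T(N) = 0`. -/
lemma Hyp.tau_lt (H : Hyp c ξ τ) {N : ℕ} (hT : TT (-1) 4 2 c N = 0) {i : ℕ} (hi : i ≤ N)
    (hci : c i ≠ 0) : τ (N - i) < 4 * τ N := by
  have h := TT_eq (a₂ := -1) (a₁ := 4) (a₀ := 2) H.hτ H.hξ N
  rw [hT] at h
  push_cast at h
  have h1 : (c i : ℝ) * τ (N - i) ≤ ∑ i ∈ range (N + 1), (c i : ℝ) * τ (N - i) := by
    refine single_le_sum (f := fun i => (c i : ℝ) * τ (N - i)) (fun j _ => ?_) (mem_range.2 (by omega))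
    exact mul_nonneg (by exact_mod_cast H.c0 j) (H.pos _).le
  have h2 : (1 : ℝ) ≤ c i := by
    have : 1 ≤ c i := by have := H.c0 i; omega
    exact_mod_cast this
  have h3 := H.pos (N - i)
  have h4 := H.pos N
  have h5 := H.ξ0
  nlinarith [mul_pos h5 h4]

/-- `T(N) = 0` only in the upper half of a gap. -/
lemma Hyp.bad (H : Hyp c ξ τ) {N : ℕ} (hT : TT (-1) 4 2 c N = 0) :
    gup c N ≤ (N - ydn c N) + 2 := by
  set y := ydn c N with hy
  set f := N - y with hf
  have hyN : y ≤ N := ydn_le c N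
  set s := ydn c f with hs
  have hsf : s ≤ f := ydn_le c f
  set g' := gup c s with hg'
  have hg'1 := H.gup_spec s
  have hL := H.gup_le_succ s
  rw [← hg'] at hg'1 hL
  have hsplus : f < s + g' := by
    by_contra hcon
    push Not at hcon
    have := le_ydn (c := c) hcon hg'1.2
    omega
  by_cases hcase : s + g' ≤ N
  · have h1 := H.tau_lt hT hcase hg'1.2
    have hy0 : y ≠ 0 := by omega
    have hcy : c y ≠ 0 := ydn_ne hy0
    have h2 : gup c (N - (s + g')) ≤ y - (N - (s + g')) := by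
      apply H.gup_le (by omega)
      rw [show N - (s + g') + (y - (N - (s + g'))) = y by omega]
      exact hcy
    obtain ⟨h3, -⟩ := H.tau_bounds (N - (s + g'))
    obtain ⟨-, h4⟩ := H.tau_bounds N
    set u := N - (s + g') with hu
    have h5 : (10 : ℝ) ^ gup c u ≤ 10 ^ (y - u) := pow_le_pow_right₀ (by norm_num) h2
    by_contra hcon
    push Not at hcon
    obtain ⟨k, hk⟩ : ∃ k, gup c N = (y - u) + 2 + k := ⟨gup c N - ((y - u) + 2), by omega⟩
    rw [hk, pow_add, pow_add] at h4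
    have h6 : (1 : ℝ) ≤ 10 ^ k := one_le_pow₀ (by norm_num)
    have h7 := H.pos u
    have h8 := H.pos N
    have h9 : 1 < 10 ^ (y - u) * τ u := lt_of_lt_of_le h3 (mul_le_mul_of_nonneg_right h5 h7.le)
    have h10 : 10 ^ (y - u) * τ u < 10 ^ (y - u) * (4 * τ N) :=
      mul_lt_mul_of_pos_left h1 (by positivity)
    have h11 : (0 : ℝ) < 10 ^ (y - u) * τ N := by positivity
    nlinarith [mul_le_mul_of_nonneg_left h6 (show (0 : ℝ) ≤ 100 * (10 ^ (y - u) * τ N) by positivity)]
  · push Not at hcase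
    have h1 : s = y := by
      apply le_antisymm
      · by_cases h0 : s = 0
        · omega
        · exact le_ydn (by omega) (ydn_ne h0)
      · by_contra hcon
        push Not at hcon
        have hcy : c y ≠ 0 := ydn_ne (by omega)
        have := H.gup_min (N := s) (j := y - s) (by omega) (by omega)
        rw [show s + (y - s) = y by omega] at this
        exact hcy this
    have h2 : gup c N ≤ s + g' - N := by
      apply H.gup_le (by omega)
      rw [show N + (s + g' - N) = s + g' by omega]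
      exact hg'1.2
    omega

/-- The counting of the `N` with `T(N) ≠ 0`. -/
lemma Hyp.count (H : Hyp c ξ τ) (N : ℕ) :
    (N : ℝ) / 2 - 2 * (lam c N + 1)
      ≤ (((range N).filter (fun R => TT (-1) 4 2 c R ≠ 0)).card : ℝ) := by
  classical
  set good := (range N).filter (fun R => TT (-1) 4 2 c R ≠ 0) with hgood
  set bad1 := (range N).filter (fun R => TT (-1) 4 2 c R = 0 ∧ 3 ≤ gup c R) with hbad1
  set near1 := (range N).filter (fun R => c (R + 1) ≠ 0) with hnear1
  set near2 := (range N).filter (fun R => c (R + 2) ≠ 0) with hnear2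
  have hcover : range N ⊆ good ∪ (bad1 ∪ (near1 ∪ near2)) := by
    intro R hR
    simp only [mem_union, hgood, hbad1, hnear1, hnear2, mem_filter]
    by_cases h1 : TT (-1) 4 2 c R = 0
    · by_cases h2 : 3 ≤ gup c R
      · exact Or.inr (Or.inl ⟨hR, h1, h2⟩)
      · obtain ⟨h3, h4⟩ := H.gup_spec R
        have h5 : gup c R = 1 ∨ gup c R = 2 := by omega
        rcases h5 with h5 | h5 <;> rw [h5] at h4
        · exact Or.inr (Or.inr (Or.inl ⟨hR, h4⟩))
        · exact Or.inr (Or.inr (Or.inr ⟨hR, h4⟩))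
    · exact Or.inl ⟨hR, h1⟩
  have hlam1 : near1.card ≤ lam c N + 1 := by
    have h1 : near1.card ≤ lam c (N + 1) := by
      refine card_le_card_of_injOn (fun R => R + 1) ?_ (fun a _ b _ h => by simpa using h)
      intro R hR
      simp only [hnear1, coe_filter, mem_range, Set.mem_ofPred_eq] at hR ⊢
      exact ⟨by omega, hR.2⟩
    have h2 := lam_succ c N
    split_ifs at h2 <;> omega
  have hlam2 : near2.card ≤ lam c N + 2 := by
    have h1 : near2.card ≤ lam c (N + 2) := by
      refine card_le_card_of_injOn (fun R => R + 2) ?_ (fun a _ b _ h => by simpa using h)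
      intro R hR
      simp only [hnear2, coe_filter, mem_range, Set.mem_ofPred_eq] at hR ⊢
      exact ⟨by omega, hR.2⟩
    have h2 := lam_succ c N
    have h3 : lam c (N + 2) = lam c (N + 1) + if c (N + 1) ≠ 0 then 1 else 0 := lam_succ c (N + 1)
    split_ifs at h2 h3 <;> omega
  have hinj : bad1.card ≤ good.card := by
    -- within a gap, `y` and the next element are constant
    have hfacts : ∀ R, TT (-1) 4 2 c R = 0 → 3 ≤ gup c R →
        ydn c (ydn c R + gup c R - 3) = ydn c R ∧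
        (ydn c R + gup c R - 3) + gup c (ydn c R + gup c R - 3) = R + gup c R ∧
        ydn c R + gup c R - 3 < R := by
      intro R hT h3
      have hb := H.bad hT
      have hyR := ydn_le c R
      set y := ydn c R with hy
      set g := gup c R with hg
      obtain ⟨hg1, hg2⟩ := H.gup_spec R
      rw [← hg] at hg1 hg2
      have hlt : y + g - 3 < R := by omega
      refine ⟨?_, ?_, hlt⟩
      · apply le_antisymm
        · by_contra hcon
          push Not at hcon
          have h4 := ydn_le c (y + g - 3)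
          have h5 : c (ydn c (y + g - 3)) ≠ 0 := ydn_ne (by omega)
          exact h5 (zero_of_ydn_lt (N := R) hcon (by omega))
        · by_cases h0 : y = 0
          · omega
          · exact le_ydn (by omega) (ydn_ne h0)
      · apply le_antisymm
        · have := H.gup_le (N := y + g - 3) (j := R + g - (y + g - 3)) (by omega)
            (by rw [show y + g - 3 + (R + g - (y + g - 3)) = R + g by omega]; exact hg2)
          omega
        · by_contra hcon
          push Not at hcon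
          obtain ⟨h4, h5⟩ := H.gup_spec (y + g - 3)
          apply h5
          by_cases h6 : (y + g - 3) + gup c (y + g - 3) ≤ R
          · exact zero_of_ydn_lt (N := R) (by omega) h6
          · have := H.gup_min (N := R) (j := (y + g - 3) + gup c (y + g - 3) - R) (by omega) (by omega)
            rwa [show R + ((y + g - 3) + gup c (y + g - 3) - R) = (y + g - 3) + gup c (y + g - 3) by omega]
              at this
    refine card_le_card_of_injOn (fun R => ydn c R + gup c R - 3) ?_ ?_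
    · intro R hR
      simp only [hbad1, hgood, coe_filter, mem_range, Set.mem_ofPred_eq] at hR ⊢
      obtain ⟨hR1, hT, h3⟩ := hR
      obtain ⟨h4, h5, h6⟩ := hfacts R hT h3
      refine ⟨by omega, fun hT' => ?_⟩
      have hb := H.bad hT
      have hb' := H.bad hT'
      have hyR := ydn_le c R
      rw [h4] at hb'
      omega
    · intro R hR R' hR' hRR
      simp only [hbad1, coe_filter, mem_range, Set.mem_ofPred_eq] at hR hR'
      obtain ⟨hR1, hT, h3⟩ := hR
      obtain ⟨hR1', hT', h3'⟩ := hR'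
      obtain ⟨h4, h5, h6⟩ := hfacts R hT h3
      obtain ⟨h4', h5', h6'⟩ := hfacts R' hT' h3'
      dsimp only at hRR
      rw [hRR, h4'] at h4
      rw [hRR, h5'] at h5
      omega
  have h1 : N ≤ good.card + (bad1.card + (near1.card + near2.card)) := by
    calc N = (range N).card := (card_range N).symm
      _ ≤ (good ∪ (bad1 ∪ (near1 ∪ near2))).card := card_le_card hcover
      _ ≤ good.card + (bad1 ∪ (near1 ∪ near2)).card := card_union_le _ _
      _ ≤ good.card + (bad1.card + (near1 ∪ near2).card) :=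
          Nat.add_le_add_left (card_union_le _ _) _
      _ ≤ _ := Nat.add_le_add_left (Nat.add_le_add_left (card_union_le _ _) _) _
  have h2 : N ≤ 2 * good.card + 2 * lam c N + 3 := by omega
  have h3 : (N : ℝ) ≤ 2 * good.card + 2 * lam c N + 3 := by exact_mod_cast h2
  linarith

theorem Hyp.main (H : Hyp c ξ τ) :
    ∃ C : ℝ, 0 < C ∧ ∀ N : ℕ, (N : ℝ) ≤ C * (lam c N + 1) ^ 2 := by
  refine main_count (D := 1) (A := 2) H.hτ ?_ ?_ H.hξ (by norm_num) H.count
  · intro N
    rw [abs_of_pos (H.pos N)]; exact (H.lt N).le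
  · intro k
    rw [abs_of_nonneg (H.c0 k)]; exact H.c9 k

end Sqrt2Digits
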