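import Pool.Agent.Sqrt2Digits.Gap

set_option autoImplicit false

/-!
The decimal digits of `√2`: distance to eventually periodic sequences.
-/

open Finset

namespace Sqrt2Digits

/-- The `k`-th decimal digit of `√2 = 1.4142…` (so `digit 0 = 1`, `digit 1 = 4`, …). -/
noncomputable def digit (k : ℕ) : ℕ := ⌊Real.sqrt 2 * 10 ^ k⌋₊ % 10

lemma digit_le (k : ℕ) : digit k ≤ 9 := by
  have := Nat.mod_lt ⌊Real.sqrt 2 * 10 ^ k⌋₊ (show 0 < 10 by norm_num)
  unfold digit; omega

lemma floor_succ (N : ℕ) :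
    ⌊Real.sqrt 2 * 10 ^ (N + 1)⌋₊ = 10 * ⌊Real.sqrt 2 * 10 ^ N⌋₊ + digit (N + 1) := by
  have h1 : ⌊Real.sqrt 2 * 10 ^ N⌋₊ = ⌊Real.sqrt 2 * 10 ^ (N + 1)⌋₊ / 10 := by
    have h2 : Real.sqrt 2 * 10 ^ N = (Real.sqrt 2 * 10 ^ (N + 1)) / ((10 : ℕ) : ℝ) := by
      rw [pow_succ]; push_cast; ring
    rw [h2, Nat.floor_div_natCast]
  rw [h1]
  unfold digit
  omega

lemma sqrt_bounds : 1 < Real.sqrt 2 ∧ Real.sqrt 2 < 3 / 2 := by
  constructor
  · rw [Real.lt_sqrt (by norm_num)]; norm_num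
  · rw [Real.sqrt_lt' (by norm_num)]; norm_num

lemma pre_digit (N : ℕ) : pre (fun k => (digit k : ℤ)) N = ⌊Real.sqrt 2 * 10 ^ N⌋₊ := by
  induction N with
  | zero =>
    have h1 : ⌊Real.sqrt 2 * 10 ^ 0⌋₊ = 1 := by
      rw [Nat.floor_eq_iff (by positivity)]
      have := sqrt_bounds
      constructor <;> push_cast <;> linarith
    have h2 : digit 0 = 1 := by unfold digit; rw [h1]
    simp only [pre, h2, h1]
  | succ N ih =>
    rw [pre, ih, floor_succ]; push_cast; ring

/-- Tail of `√2`. -/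
lemma tail_bounds (N : ℕ) : 0 < 10 ^ N * Real.sqrt 2 - (⌊Real.sqrt 2 * 10 ^ N⌋₊ : ℝ) ∧
    10 ^ N * Real.sqrt 2 - (⌊Real.sqrt 2 * 10 ^ N⌋₊ : ℝ) < 1 := by
  have h0 : (0 : ℝ) ≤ Real.sqrt 2 * 10 ^ N := by positivity
  have h1 := Nat.floor_le h0
  have h2 := Nat.lt_floor_add_one (Real.sqrt 2 * 10 ^ N)
  constructor
  · rcases h1.lt_or_eq with h | h
    · linarith
    · exfalso
      have hirr := irrational_sqrt_two
      apply hirr
      refine ⟨(⌊Real.sqrt 2 * 10 ^ N⌋₊ : ℚ) / 10 ^ N, ?_⟩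
      push_cast
      rw [h]; field_simp
  · linarith

lemma sqrt_sq : Real.sqrt 2 ^ 2 = 2 := Real.sq_sqrt (by norm_num)

/-- Case `w = 0`. -/
theorem case_zero :
    ∃ C : ℝ, 0 < C ∧ ∀ N : ℕ, (N : ℝ) ≤ C * (lam (fun k => (digit k : ℤ)) N + 1) ^ 2 := by
  set c : ℕ → ℤ := fun k => (digit k : ℤ) with hc
  set τ : ℕ → ℝ := fun N => 10 ^ N * Real.sqrt 2 - pre c N with hτ
  have hpre : ∀ N, ((pre c N : ℤ) : ℝ) = (⌊Real.sqrt 2 * 10 ^ N⌋₊ : ℝ) := fun N => by
    rw [hc, pre_digit]; push_cast; rfl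
  have hb : ∀ N, 0 < τ N ∧ τ N < 1 := fun N => by
    simp only [hτ, hpre]; exact tail_bounds N
  have hrel : (((1 : ℤ) : ℝ)) * Real.sqrt 2 ^ 2 + ((0 : ℤ) : ℝ) * Real.sqrt 2 = ((2 : ℤ) : ℝ) := by
    rw [sqrt_sq]; push_cast; ring
  refine main_count (η := Real.sqrt 2) (τ := τ) (a₂ := 1) (a₁ := 0) (a₀ := 2) (D := 1) (A := 0)
    (fun N => rfl) (fun N => ?_) (fun k => ?_) hrel le_rfl ?_
  · rw [abs_of_pos (hb N).1]; exact (hb N).2.le
  · simp only [hc]
    have := digit_le k
    rw [abs_of_nonneg (by positivity)]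
    exact_mod_cast this
  · intro N
    have hne : ∀ R, TT 1 0 2 c R ≠ 0 := by
      intro R hT
      have h := TT_eq (a₂ := 1) (a₁ := 0) (a₀ := 2) (τ := τ) (η := Real.sqrt 2) (c := c)
        (fun N => rfl) hrel R
      rw [hT] at h
      push_cast at h
      have h1 : 0 ≤ ∑ i ∈ range (R + 1), (c i : ℝ) * τ (R - i) := by
        refine sum_nonneg fun i _ => mul_nonneg ?_ (hb _).1.le
        simp only [hc]; positivity
      have h2 := mul_pos (show 0 < Real.sqrt 2 by positivity) (hb R).1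
      linarith
    rw [filter_true_of_mem (fun R _ => hne R), card_range]
    have : (0 : ℝ) ≤ N := by positivity
    linarith

/-- The digits of `2 - √2`. -/
noncomputable def dig9 : ℕ → ℤ
  | 0 => 0
  | k + 1 => 9 - digit (k + 1)

lemma pre_dig9 (N : ℕ) : pre dig9 N = 2 * 10 ^ N - 1 - ⌊Real.sqrt 2 * 10 ^ N⌋₊ := by
  rw [← pre_digit]
  induction N with
  | zero =>
    have h := pre_digit 0
    have h1 : ⌊Real.sqrt 2 * 10 ^ 0⌋₊ = 1 := by
      rw [Nat.floor_eq_iff (by positivity)]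
      have := sqrt_bounds
      constructor <;> push_cast <;> linarith
    rw [h, h1]
    simp [pre, dig9]
  | succ N ih =>
    rw [pre, ih, pre, dig9, pow_succ]; ring

/-- Case `w = 9`. -/
theorem case_nine : ∃ C : ℝ, 0 < C ∧ ∀ N : ℕ, (N : ℝ) ≤ C * (lam dig9 N + 1) ^ 2 := by
  have hs := sqrt_bounds
  have hpre : ∀ N, ((pre dig9 N : ℤ) : ℝ) = 2 * 10 ^ N - 1 - (⌊Real.sqrt 2 * 10 ^ N⌋₊ : ℝ) :=
    fun N => by rw [pre_dig9]; push_cast; ring
  have H : Hyp dig9 (2 - Real.sqrt 2) (fun N => 10 ^ N * (2 - Real.sqrt 2) - pre dig9 N) := by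
    refine ⟨fun N => rfl, fun N => ?_, fun N => ?_, fun k => ?_, fun k => ?_, ?_, by linarith,
      by linarith⟩
    · have := (tail_bounds N).2
      simp only [hpre]; linarith
    · have := (tail_bounds N).1
      simp only [hpre]; linarith
    · cases k with
      | zero => exact le_rfl
      | succ k => have := digit_le (k + 1); simp only [dig9]; omega
    · cases k with
      | zero => simp [dig9]
      | succ k => simp only [dig9]; omega
    · have := sqrt_sq
      push_cast; nlinarith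
  exact H.main

/-! ### Eventually periodic sequences -/

/-- Prefixes of the difference. -/
lemma pre_sub (c d : ℕ → ℤ) (N : ℕ) : pre (fun k => c k - d k) N = pre c N - pre d N := by
  induction N with
  | zero => simp [pre]
  | succ N ih => rw [pre, ih, pre, pre]; ring

lemma pre_add_period {w : ℕ → ℤ} {K m : ℕ} (hper : ∀ k ≥ K, w (k + m) = w k) (M : ℕ) (hM : K ≤ M + 1) :
    ∀ j, pre w (M + m + j) - pre w (M + j) = 10 ^ j * (pre w (M + m) - pre w M) := by
  intro j
  induction j with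
  | zero => simp
  | succ j ih =>
    rw [← add_assoc, ← add_assoc, pre, pre, show M + m + j + 1 = (M + j + 1) + m by ring,
      hper (M + j + 1) (by omega), pow_succ]
    linear_combination 10 * ih

/-- The block of `m` digits following position `M`. -/
def block (w : ℕ → ℤ) (M : ℕ) : ℕ → ℤ
  | 0 => 0
  | m + 1 => 10 * block w M m + w (M + m + 1)

lemma pre_add (w : ℕ → ℤ) (M m : ℕ) : pre w (M + m) = 10 ^ m * pre w M + block w M m := by
  induction m with
  | zero => simp [block]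
  | succ m ih => rw [← add_assoc, pre, ih, block, pow_succ]; ring

lemma block_nonneg {w : ℕ → ℤ} (h0 : ∀ k, 0 ≤ w k) (M m : ℕ) : 0 ≤ block w M m := by
  induction m with
  | zero => exact le_rfl
  | succ m ih => rw [block]; have := h0 (M + m + 1); omega

lemma block_le {w : ℕ → ℤ} (h9 : ∀ k, w k ≤ 9) (M m : ℕ) : block w M m ≤ 10 ^ m - 1 := by
  induction m with
  | zero => simp [block]
  | succ m ih => rw [block, pow_succ]; have := h9 (M + m + 1); omega

lemma block_eq_zero {w : ℕ → ℤ} (h0 : ∀ k, 0 ≤ w k) (M m : ℕ) (h : block w M m = 0) :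
    ∀ j, 1 ≤ j → j ≤ m → w (M + j) = 0 := by
  induction m with
  | zero => intro j h1 h2; omega
  | succ m ih =>
    rw [block] at h
    have h1 := block_nonneg h0 M m
    have h2 := h0 (M + m + 1)
    intro j hj1 hj2
    rcases Nat.lt_or_ge m j with h3 | h3
    · have : j = m + 1 := by omega
      subst this
      rw [← add_assoc]; omega
    · exact ih (by omega) j hj1 h3

lemma block_eq_nine {w : ℕ → ℤ} (h9 : ∀ k, w k ≤ 9) (M m : ℕ) (h : block w M m = 10 ^ m - 1) :
    ∀ j, 1 ≤ j → j ≤ m → w (M + j) = 9 := by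
  induction m with
  | zero => intro j h1 h2; omega
  | succ m ih =>
    rw [block, pow_succ] at h
    have h1 := block_le h9 M m
    have h2 := h9 (M + m + 1)
    intro j hj1 hj2
    rcases Nat.lt_or_ge m j with h3 | h3
    · have : j = m + 1 := by omega
      subst this
      rw [← add_assoc]; omega
    · exact ih (by omega) j hj1 h3

lemma const_of_block {w : ℕ → ℤ} {K m : ℕ} (hm : 0 < m) (hper : ∀ k ≥ K, w (k + m) = w k) {v : ℤ}
    (h : ∀ j, 1 ≤ j → j ≤ m → w (K + j) = v) : ∀ k, K < k → w k = v := by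
  intro k
  induction k using Nat.strong_induction_on with
  | _ k ih =>
    intro hk
    by_cases h1 : k ≤ K + m
    · have := h (k - K) (by omega) (by omega)
      rwa [show K + (k - K) = k by omega] at this
    · have h2 := ih (k - m) (by omega) (by omega)
      have h3 := hper (k - m) (by omega)
      rw [show k - m + m = k by omega] at h3
      rw [h3, h2]

end Sqrt2Digits
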